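import Pool.Agent.Helper31.PW.MOR
import Pool.Agent.Helper95.PN.Stmts

/-!
# The repulsion for a one-body momentum operator

The commutator of the repulsion of the electrons with the momentum operator of a field `∇ g`,
the Hessian of `g` being at least `-A`.
-/

set_option autoImplicit false

namespace Pool.Agent.Helper91.PNREPL

open MeasureTheory Filter Topology Pool.Agent.Helper95.PW Pool.Agent.Helper31.PWMOR

theorem pdc {g : R3 → ℝ} (hg : ContDiff ℝ (⊤ : ℕ∞) g) (i : Fin 3) :
    ContDiff ℝ (⊤ : ℕ∞) (pd i g) := by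
  unfold pd
  exact (hg.fderiv_right (m := (⊤ : ℕ∞)) (by simp)).clm_apply contDiff_const

theorem lpc {g : R3 → ℝ} (hg : ContDiff ℝ (⊤ : ℕ∞) g) : ContDiff ℝ (⊤ : ℕ∞) (lap g) := by
  unfold lap
  exact ContDiff.sum (fun i _ => pdc (pdc hg i) i)

theorem cpc {n : ℕ} {G : R3 → ℝ} (hG : ContDiff ℝ (⊤ : ℕ∞) G) (k : Fin n) :
    ContDiff ℝ (⊤ : ℕ∞) (fun x : Cf n => G (x k)) :=
  hG.comp (contDiff_apply ℝ R3 k)

/-- chain rule -/
theorem ch {n : ℕ} {G : R3 → ℝ} (hG : ContDiff ℝ (⊤ : ℕ∞) G) (m k : Fin n) (i : Fin 3)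
    (x : Cf n) : dv m i (fun x : Cf n => G (x k)) x = if m = k then pd i G (x k) else 0 := by
  have h2 : HasFDerivAt (fun y : Cf n => G (y k))
      ((fderiv ℝ G (x k)).comp (ContinuousLinearMap.proj (R := ℝ) (φ := fun _ : Fin n => R3) k))
      x := by
    have ha : HasFDerivAt G (fderiv ℝ G (x k)) (x k) :=
      ((hG.differentiable (by simp)) (x k)).hasFDerivAt
    have hb : HasFDerivAt (fun y : Cf n => y k)
      (ContinuousLinearMap.proj (R := ℝ) (φ := fun _ : Fin n => R3) k) x :=
      (ContinuousLinearMap.proj (R := ℝ) (φ := fun _ : Fin n => R3) k).hasFDerivAt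
    exact HasFDerivAt.comp x ha hb
  unfold dv
  rw [h2.fderiv]
  by_cases h : m = k
  · subst h
    simp [pd]
  · have h' : k ≠ m := fun h3 => h h3.symm
    simp [h]

/-- the derivative in a direction -/
theorem fdx (G : R3 → ℝ) (p ξ : R3) : fderiv ℝ G p ξ = ∑ l, ξ l * pd l G p := by
  have e : ξ = ξ 0 • (Pi.single 0 1 : R3) + ξ 1 • (Pi.single 1 1 : R3) +
      ξ 2 • (Pi.single 2 1 : R3) := by
    funext i
    fin_cases i <;> simp
  conv_lhs => rw [e]
  simp only [map_add, map_smul, smul_eq_mul, Fin.sum_univ_three]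
  rfl

/-- monotonicity of the gradient up to `A` -/
theorem mono {g : R3 → ℝ} (hg : ContDiff ℝ (⊤ : ℕ∞) g) {A : ℝ}
    (hs : ∀ (y : R3) (ξ : Fin 3 → ℝ),
      -(A * ∑ i, ξ i ^ 2) ≤ ∑ i, ∑ l, pd i (pd l g) y * ξ i * ξ l) (x y : R3) :
    -(A * ∑ i, (x i - y i) ^ 2) ≤ ∑ i, (x i - y i) * (pd i g x - pd i g y) := by
  have hd : ∀ t : ℝ, HasDerivAt (fun t : ℝ => ∑ i, (x i - y i) * pd i g (y + t • (x - y)))
      (∑ i, (x i - y i) * fderiv ℝ (pd i g) (y + t • (x - y)) (x - y)) t := by
    intro t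
    refine HasDerivAt.fun_sum (fun i _ => ?_)
    refine HasDerivAt.const_mul _ ?_
    have h1 : HasDerivAt (fun t : ℝ => y + t • (x - y)) (x - y) t := by
      have := ((hasDerivAt_id t).smul_const (x - y)).const_add y
      simpa using this
    have h2 : HasFDerivAt (pd i g) (fderiv ℝ (pd i g) (y + t • (x - y))) (y + t • (x - y)) :=
      ((pdc hg i).differentiable (by simp) _).hasFDerivAt
    exact h2.comp_hasDerivAt t h1
  obtain ⟨c, -, hc⟩ := exists_hasDerivAt_eq_slope
    (fun t : ℝ => ∑ i, (x i - y i) * pd i g (y + t • (x - y)))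
    (fun t => ∑ i, (x i - y i) * fderiv ℝ (pd i g) (y + t • (x - y)) (x - y))
    (zero_lt_one) (fun t _ => (hd t).continuousAt.continuousWithinAt) (fun t _ => hd t)
  have e1 : y + (1 : ℝ) • (x - y) = x := by simp
  have e0 : y + (0 : ℝ) • (x - y) = y := by simp
  simp only [e1, e0, fdx] at hc
  have h3 := hs (y + c • (x - y)) (fun i => x i - y i)
  simp only [Fin.sum_univ_three, Pi.sub_apply] at hc h3 ⊢
  linarith

theorem Pc {n : ℕ} {g : R3 → ℝ} (hg : ContDiff ℝ (⊤ : ℕ∞) g) {v : Cf n → ℝ}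
    (hv : ContDiff ℝ (⊤ : ℕ∞) v) : ContDiff ℝ (⊤ : ℕ∞) (Pg g v) := by
  unfold Pg
  refine ContDiff.sum (fun k _ => ?_)
  refine ContDiff.add (ContDiff.sum (fun i _ => (cpc (pdc hg i) k).mul (csd k i hv))) ?_
  exact ((cpc (lpc hg) k).div_const 2).mul hv

theorem Ps {n : ℕ} {g : R3 → ℝ} {v : Cf n → ℝ} (hv : HasCompactSupport v) :
    HasCompactSupport (Pg g v) := by
  refine HasCompactSupport.intro hv (fun x hx => ?_)
  have h1 : v x = 0 := image_eq_zero_of_notMem_tsupport hx
  have h2 : fderiv ℝ v x = 0 := fderiv_of_notMem_tsupport ℝ hx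
  unfold Pg dv
  simp [h1, h2]

theorem L1g (ibp : ST_IBP) {n : ℕ} {g : R3 → ℝ} (hg : ContDiff ℝ (⊤ : ℕ∞) g)
    {v W : Cf n → ℝ}
    (hv : ContDiff ℝ (⊤ : ℕ∞) v) (hc : HasCompactSupport v) (hW : ContDiff ℝ (⊤ : ℕ∞) W) :
    Integrable (fun x => 2 * (W x * (v x * Pg g v x)) +
      v x ^ 2 * ∑ k, ∑ i, pd i g (x k) * dv k i W x) ∧
    ∫ x, (2 * (W x * (v x * Pg g v x)) + v x ^ 2 * ∑ k, ∑ i, pd i g (x k) * dv k i W x) = 0 := by
  have hv2 : HasCompactSupport (fun x => v x ^ 2) := by
    refine HasCompactSupport.intro hc (fun x hx => ?_)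
    have h1 : v x = 0 := image_eq_zero_of_notMem_tsupport hx
    simp [h1]
  have h := s0 (n := n) (fun k i => L0 ibp k i (hv.pow 2) hv2 (hW.mul (cpc (pdc hg i) k)))
  have e : (fun x => 2 * (W x * (v x * Pg g v x)) +
      v x ^ 2 * ∑ k, ∑ i, pd i g (x k) * dv k i W x) = fun x => ∑ k, ∑ i,
      (dv k i (fun x => v x ^ 2) x * (W x * pd i g (x k)) +
        v x ^ 2 * dv k i (fun x => W x * pd i g (x k)) x) := by
    funext x
    unfold Pg
    rw [Finset.mul_sum, Finset.mul_sum, Finset.mul_sum, Finset.mul_sum, ← Finset.sum_add_distrib]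
    refine Finset.sum_congr rfl (fun k _ => ?_)
    have e1 : ∀ i, dv k i (fun x : Cf n => W x * pd i g (x k)) x =
        dv k i W x * pd i g (x k) + W x * pd i (pd i g) (x k) := by
      intro i
      have h1 := dm k i hW (cpc (pdc hg i) k) x
      rw [ch (pdc hg i) k k i x] at h1
      simpa using h1
    simp only [e1]
    unfold lap
    simp only [Fin.sum_univ_three]
    simp only [dsq k _ hv]
    ring
  rw [e]
  exact h

/-- a pair of electrons -/
theorem RPg (ibp : ST_IBP) (int : ST_INT) {n : ℕ} {g : R3 → ℝ} (hg : ContDiff ℝ (⊤ : ℕ∞) g)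
    {A : ℝ} (hA : 0 ≤ A)
    (hs : ∀ (y : R3) (ξ : Fin 3 → ℝ),
      -(A * ∑ i, ξ i ^ 2) ≤ ∑ i, ∑ l, pd i (pd l g) y * ξ i * ξ l) {v : Cf n → ℝ}
    (hv : ContDiff ℝ (⊤ : ℕ∞) v) (hc : HasCompactSupport v) {k l : Fin n} (hkl : k < l) :
    -(A / 2 * ∫ x, 1 / nr (x k - x l) * (v x * v x)) ≤
      ∫ x, 1 / nr (x k - x l) * (v x * Pg g v x) := by
  have hne : k ≠ l := hkl.ne
  have hP := Pc hg hv
  have hQ := Ps (g := g) hc
  refine ge_of_tendsto' (lim (Ge := fun m => rp (1 / ((m : ℝ) + 1)) k l)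
    (ir int hv hc hP hQ hkl) ?_ ?_ ?_) ?_
  · intro m
    exact ((rp_c (em m) k l).continuous.mul (hv.continuous.mul hP.continuous)).aestronglyMeasurable
  · intro m
    filter_upwards [ae2 hne] with x hx
    have h1 := rp_p (em m) k l x
    have h2 := rp_le (s := 1 / ((m : ℝ) + 1)) k l x hx
    rw [abs_of_pos h1, abs_of_pos (h1.trans_le h2)]
    exact h2
  · filter_upwards [ae2 hne] with x hx
    have hp : 0 < nr (x k - x l) := lt_of_le_of_ne (nr_nn _) (Ne.symm hx)
    have h1 : 0 < (x k 0 - x l 0) ^ 2 + (x k 1 - x l 1) ^ 2 + (x k 2 - x l 2) ^ 2 := by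
      have := nr_sq (x k - x l)
      simp only [Pi.sub_apply] at this
      rw [← this]; positivity
    have h2 := tl h1
    rw [one_div]
    exact h2
  · intro m
    have he := em m
    generalize 1 / ((m : ℝ) + 1) = e at he ⊢
    have h := L1g ibp hg hv hc (rp_c he k l)
    have i1 : Integrable (fun x => rp e k l x * (v x * Pg g v x)) :=
      icc ((rp_c he k l).mul (hv.mul hP)) (hc.mul_right.mul_left)
    have i2 := ir int hv hc hv hc hkl
    have h2 : ∫ x, (2 * (rp e k l x * (v x * Pg g v x)) +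
        v x ^ 2 * ∑ m, ∑ i, pd i g (x m) * dv m i (rp e k l) x) ≤
        ∫ x, (2 * (rp e k l x * (v x * Pg g v x)) +
          A * (1 / nr (x k - x l) * (v x * v x))) := by
      refine integral_mono_ae h.1 ((i1.const_mul 2).add (i2.const_mul A)) ?_
      filter_upwards [ae2 hne] with x hx
      have e1 : ∑ m, ∑ i, pd i g (x m) * dv m i (rp e k l) x =
          -(rp e k l x ^ 3 * ∑ i, (x k i - x l i) * (pd i g (x k) - pd i g (x l))) := by
        have e2 : ∀ m, ∑ i, pd i g (x m) * dv m i (rp e k l) x =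
            (if m = k then -(rp e k l x ^ 3 * ∑ i, (x k i - x l i) * pd i g (x k)) else 0) +
            (if m = l then rp e k l x ^ 3 * ∑ i, (x k i - x l i) * pd i g (x l) else 0) := by
          intro m
          simp only [drp he, Fin.sum_univ_three]
          by_cases hk : m = k
          · subst hk
            simp [hne]
            ring
          · by_cases hl : m = l
            · subst hl
              simp [hk]
              ring
            · simp [hk, hl]
        rw [Finset.sum_congr rfl (fun m _ => e2 m), Finset.sum_add_distrib]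
        simp only [Finset.sum_ite_eq', Finset.mem_univ, if_true, Fin.sum_univ_three]
        ring
      have e3 := mono hg hs (x k) (x l)
      have q1 := rp_q he k l x
      have p1 := rp_p he k l x
      have p2 := rp_le (s := e) k l x hx
      have e4 : ∑ m, ∑ i, pd i g (x m) * dv m i (rp e k l) x ≤ A * (1 / nr (x k - x l)) := by
        rw [e1]
        generalize ∑ i, (x k i - x l i) * (pd i g (x k) - pd i g (x l)) = S at *
        have e5 : rp e k l x ^ 2 * ∑ i, (x k i - x l i) ^ 2 ≤ 1 := by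
          rw [Fin.sum_univ_three]
          have : 0 ≤ rp e k l x ^ 2 * e ^ 2 := by positivity
          linarith
        generalize ∑ i, (x k i - x l i) ^ 2 = D at *
        generalize rp e k l x = r at *
        calc -(r ^ 3 * S) = r ^ 3 * (-S) := by ring
          _ ≤ r ^ 3 * (A * D) := mul_le_mul_of_nonneg_left (by linarith) (by positivity)
          _ = A * r * (r ^ 2 * D) := by ring
          _ ≤ A * r * 1 := mul_le_mul_of_nonneg_left e5 (by positivity)
          _ = A * r := by ring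
          _ ≤ A * (1 / nr (x k - x l)) := mul_le_mul_of_nonneg_left p2 hA
      have e6 := mul_le_mul_of_nonneg_left e4 (sq_nonneg (v x))
      have e7 : v x ^ 2 * (A * (1 / nr (x k - x l))) =
        A * (1 / nr (x k - x l) * (v x * v x)) := by ring
      linarith
    rw [h.2, integral_add (i1.const_mul 2) (i2.const_mul A), integral_const_mul,
      integral_const_mul] at h2
    linarith

/-- the sum over the pairs -/
theorem su (int : ST_INT) {n : ℕ} {v w : Cf n → ℝ} (hv : ContDiff ℝ (⊤ : ℕ∞) v)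
    (hc : HasCompactSupport v) (hw : ContDiff ℝ (⊤ : ℕ∞) w) (hd : HasCompactSupport w) :
    ∫ x, rep x * (v x * w x) = ∑ k : Fin n, ∑ l : Fin n,
      if k < l then ∫ x : Cf n, 1 / nr (x k - x l) * (v x * w x) else 0 := by
  have e : (fun x => rep x * (v x * w x)) = fun x => ∑ k, ∑ l, if k < l then
      1 / nr (x k - x l) * (v x * w x) else 0 := by
    funext x
    unfold rep
    simp only [Finset.sum_mul, ite_mul, zero_mul]
  have i1 : ∀ k l : Fin n, Integrable (fun x : Cf n => if k < l then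
      1 / nr (x k - x l) * (v x * w x) else 0) := by
    intro k l
    split_ifs with h
    · exact ir int hv hc hw hd h
    · exact integrable_zero _ _ _
  rw [e, integral_finsetSum _ (fun k _ => integrable_finsetSum _ (fun l _ => i1 k l))]
  refine Finset.sum_congr rfl (fun k _ => ?_)
  rw [integral_finsetSum _ (fun l _ => i1 k l)]
  refine Finset.sum_congr rfl (fun l _ => ?_)
  split_ifs with h
  · rfl
  · simp

end Pool.Agent.Helper91.PNREPL

namespace Pool.Agent.Helper95.PW

open MeasureTheory Pool.Agent.Helper91.PNREPL in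
/-- the repulsion -/
theorem st_REPL (h1 : ST_IBP) (h2 : ST_INT) (_h3 : ST_HA2) : ST_REPL := by
  intro n g A u hg _ hA hs hu
  unfold pair
  rw [Finset.mul_sum, ← Finset.sum_neg_distrib]
  refine Finset.sum_le_sum (fun s _ => ?_)
  have hv := (hu s).1
  have hc := (hu s).2
  have e1 : ∫ x, rep x * u s x ^ 2 = ∫ x, rep x * (u s x * u s x) := by
    simp only [pow_two]
  have e2 : ∫ x, rep x * (Pg g (u s) x * u s x) = ∫ x, rep x * (u s x * Pg g (u s) x) := by
    simp only [mul_comm (Pg g (u s) _) (u s _)]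
  rw [e1, e2, su h2 hv hc hv hc, su h2 hv hc (Pc hg hv) (Ps hc), Finset.mul_sum,
    ← Finset.sum_neg_distrib]
  refine Finset.sum_le_sum (fun k _ => ?_)
  rw [Finset.mul_sum, ← Finset.sum_neg_distrib]
  refine Finset.sum_le_sum (fun l _ => ?_)
  split_ifs with h
  · exact RPg h1 h2 hg hA hs hv hc h
  · simp

end Pool.Agent.Helper95.PW
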